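import Pool.Agent.PLX.StmtsC

set_option autoImplicit false

/-!
# Squad PLX, row GPL
-/

namespace Pool.Agent.PLX.H23

open Module

theorem nd_le (P : Finset ℂ) : PLX.nd P ≤ Pool.Agent.FRE.nd P + 1 := by
  classical
  unfold PLX.nd Pool.Agent.FRE.nd
  have h : (P ×ˢ P).image (fun p : ℂ × ℂ => ‖p.1 - p.2‖) ⊆
      insert 0 (P.offDiag.image fun p : ℂ × ℂ => dist p.1 p.2) := by
    intro r hr
    obtain ⟨p, hp, rfl⟩ := Finset.mem_image.1 hr
    rw [Finset.mem_product] at hp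
    rw [Finset.mem_insert]
    by_cases h0 : p.1 = p.2
    · left
      rw [h0, sub_self, norm_zero]
    · right
      refine Finset.mem_image.2 ⟨p, Finset.mem_offDiag.2 ⟨hp.1, hp.2, h0⟩, ?_⟩
      exact Complex.dist_eq _ _
  exact (Finset.card_le_card h).trans (Finset.card_insert_le _ _)

open Classical in
theorem gpl : GplRow := by
  intro hG d K hK
  obtain ⟨ε, c, a, hε, hc, h⟩ := hG d K
  refine ⟨ε / 2, c, (a : ℝ) + 1, by positivity, hc, by positivity, ⌈2 / ε⌉₊ + 3, ?_⟩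
  intro g N P hP hn hcard hnd
  have hn3 : (3 : ℝ) ≤ P.card := by
    have h1 : 3 ≤ P.card := by omega
    exact_mod_cast h1
  have hn2 : 2 / ε ≤ P.card := by
    have h1 : 2 / ε ≤ (⌈2 / ε⌉₊ : ℝ) := Nat.le_ceil _
    have h2 : ((⌈2 / ε⌉₊ + 3 : ℕ) : ℝ) ≤ P.card := by exact_mod_cast hn
    push_cast at h2
    linarith
  have hne : P.Nonempty := by
    rw [← Finset.card_pos]
    omega
  have h1 : (PLX.nd P : ℝ) ≤ ε * P.card := by
    have h2 : (PLX.nd P : ℝ) ≤ (Pool.Agent.FRE.nd P : ℝ) + 1 := by exact_mod_cast nd_le P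
    have h3 : 1 ≤ ε / 2 * P.card := by
      rw [div_le_iff₀ hε] at hn2
      linarith
    linarith
  obtain ⟨z, hz, p, hp, hr⟩ := h N g P 0 hne
    (fun q hq => by
      obtain ⟨x, hx, hq'⟩ := hP q hq
      exact ⟨x, hx, by rw [zero_add]; exact hq'⟩) hcard h1
  refine ⟨p, z, hz, ?_⟩
  have hlog : 1 ≤ Real.log P.card := by
    rw [Real.le_log_iff_exp_le (by linarith)]
    linarith [Real.exp_one_lt_d9]
  have h4 : (Real.log P.card) ^ a ≤ Real.log P.card ^ ((a : ℝ) + 1) := by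
    rw [← Real.rpow_natCast]
    exact Real.rpow_le_rpow_of_exponent_le hlog (by linarith)
  refine hr.trans ?_
  refine mul_le_mul h4 (Nat.cast_le.2 (Finset.card_le_card ?_)) (Nat.cast_nonneg _) (by positivity)
  intro q hq
  rw [Finset.mem_filter] at hq ⊢
  obtain ⟨t, ht⟩ := mem_lin.1 hq.2
  refine ⟨hq.1, t, ?_⟩
  rw [← ht]
  ring

end Pool.Agent.PLX.H23
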